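import Pool.Agent.H20.FV.Dom
import Pool.Agent.H20.FV.Weyl
import Pool.Agent.H20.FV.Dual
import Pool.Agent.H20.FV.Mini

/-!
# The descent criterion (MP_e49dc9_ag): definitions, rational polyhedral cones, the Dirichlet cone

`Sig C G ξ` is the set of the points of `closure C` at which the integral functional `ξ` is minimal on the orbit.
`RelAt C G x`: the relative cone conjecture at the integral class `x`.
`Desc C G ξ`: a point of `closure C` outside the hull of the rational points can be lowered by an element of `G`.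
-/

set_option autoImplicit false

namespace Pool.Agent.H83.DC

open Pool.Agent.H57.KM Pool.Agent.H20.FV

variable {n : ℕ}

/-- the convex hull of the rational points of the closure -/
def Plus (C : Set (V n)) : Set (V n) := convexHull ℝ {x | x ∈ closure C ∧ ∃ q : Fin n → ℚ, x = qR q}

/-- the relative cone conjecture at `x`: there are finitely many integral points of `closure C` such that every
integral point `A` of `C` is carried, after adding a multiple of `x`, into the cone generated by them by an element of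
`G` which fixes `x` -/
def RelAt (C : Set (V n)) (G : Subgroup (GL (Fin n) ℤ)) (x : Fin n → ℤ) : Prop :=
  ∃ S : Finset (Fin n → ℤ), (∀ s ∈ S, toR s ∈ closure C) ∧
    ∀ A : Fin n → ℤ, toR A ∈ C → ∃ g ∈ G, act g (toR x) = toR x ∧ ∃ t : ℝ, 0 ≤ t ∧
      act g (toR A + t • toR x) ∈ cone S

/-- the relative cone conjecture at all nonzero integral points of the boundary of `C` -/
def Rel (C : Set (V n)) (G : Subgroup (GL (Fin n) ℤ)) : Prop :=
  ∀ x : Fin n → ℤ, x ≠ 0 → toR x ∈ closure C → toR x ∉ C → RelAt C G x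

/-- descent: `ξ` is not minimal on the orbit of a point outside the hull of the rational points -/
def Desc (C : Set (V n)) (G : Subgroup (GL (Fin n) ℤ)) (ξ : Fin n → ℤ) : Prop :=
  ∀ x ∈ closure C, x ∉ Plus C → ∃ g ∈ G, toR ξ ⬝ᵥ act g x < toR ξ ⬝ᵥ x

/-- the Dirichlet cone -/
def Sig (C : Set (V n)) (G : Subgroup (GL (Fin n) ℤ)) (ξ : Fin n → ℤ) : Set (V n) :=
  {x | x ∈ closure C ∧ ∀ g ∈ G, toR ξ ⬝ᵥ x ≤ toR ξ ⬝ᵥ act g x}

/-! ### rational polyhedral cones -/

theorem cone_closed {C : Set (V n)} (h : IsAmp C) {S : Finset (Fin n → ℤ)}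
    (hS : ∀ s ∈ S, toR s ∈ closure C) : IsClosed (cone S) := by
  classical
  rw [← datum_pcone]
  refine (datumD h).pcone_closed ?_
  intro s hs
  obtain ⟨t, ht, rfl⟩ := Finset.mem_image.1 hs
  exact hS t ht

/-- the translate of a finite set -/
def tr (g : GL (Fin n) ℤ) (S : Finset (Fin n → ℤ)) : Finset (Fin n → ℤ) :=
  S.image fun s => (g : Matrix (Fin n) (Fin n) ℤ).mulVec s

theorem mem_tr {g : GL (Fin n) ℤ} {S : Finset (Fin n → ℤ)} {t : Fin n → ℤ} :
    t ∈ tr g S ↔ ∃ s ∈ S, toR t = act g (toR s) := by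
  classical
  unfold tr
  rw [Finset.mem_image]
  constructor
  · rintro ⟨s, hs, rfl⟩
    exact ⟨s, hs, (act_toR g s).symm⟩
  · rintro ⟨s, hs, h⟩
    refine ⟨s, hs, toR_inj ?_⟩
    rw [h, act_toR]

theorem tr_closure {C : Set (V n)} {G : Subgroup (GL (Fin n) ℤ)} (hG : Pres G C) {g : GL (Fin n) ℤ}
    (hg : g ∈ G) {S : Finset (Fin n → ℤ)} (hS : ∀ s ∈ S, toR s ∈ closure C) :
    ∀ s ∈ tr g S, toR s ∈ closure C := by
  intro t ht
  obtain ⟨s, hs, h⟩ := mem_tr.1 ht
  rw [h]
  exact hG.closure g hg _ (hS s hs)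

theorem act_cone {g : GL (Fin n) ℤ} {S : Finset (Fin n → ℤ)} {x : V n} (hx : x ∈ cone S) :
    act g x ∈ cone (tr g S) := by
  obtain ⟨c, hc, rfl⟩ := hx
  rw [act_sum]
  apply sum_mem_cone
  intro s hs
  rw [act_smul, act_toR, ]
  exact cone_smul (hc s) (toR_mem_cone (mem_tr.2 ⟨s, hs, (act_toR g s).symm⟩))

theorem cone_act {g : GL (Fin n) ℤ} {S : Finset (Fin n → ℤ)} {x : V n} (hx : x ∈ cone (tr g S)) :
    act g⁻¹ x ∈ cone S := by
  obtain ⟨c, hc, rfl⟩ := hx
  rw [act_sum]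
  apply sum_mem_cone
  intro t ht
  obtain ⟨s, hs, h⟩ := mem_tr.1 ht
  rw [act_smul, h, act_inv_act]
  exact cone_smul (hc t) (toR_mem_cone hs)

/-- a closed finitely generated cone is given by finitely many integral inequalities -/
theorem halfspaces {S : Finset (Fin n → ℤ)} (hcl : IsClosed (cone S)) :
    ∃ T : Finset (Fin n → ℤ), ∀ x : V n, x ∈ cone S ↔ ∀ t ∈ T, 0 ≤ toR t ⬝ᵥ x := by
  obtain ⟨T, hT⟩ := weyl S
  refine ⟨T, fun x => ⟨?_, fun hx => ?_⟩⟩
  · rintro ⟨c, hc, rfl⟩ t ht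
    have h1 : toR t ∈ {x : V n | ∀ f ∈ S, 0 ≤ toR f ⬝ᵥ x} := by
      rw [hT]
      exact toR_mem_cone ht
    rw [dotProduct_sum]
    refine Finset.sum_nonneg fun s hs => ?_
    rw [dotProduct_smul, smul_eq_mul]
    refine mul_nonneg (hc s) ?_
    rw [dotProduct_comm]
    exact h1 s hs
  · by_contra hcon
    have hconv : Convex ℝ (cone S) := fun y hy z hz a b ha hb _ =>
      cone_add (cone_smul ha hy) (cone_smul hb hz)
    obtain ⟨f, u, h1, h2⟩ := geometric_hahn_banach_point_closed hconv hcl hcon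
    have hu : u < 0 := by
      have h3 := h2 0 (zero_mem_cone S)
      rwa [map_zero] at h3
    have h3 : ∀ y ∈ cone S, 0 ≤ f y := by
      intro y hy
      by_contra hneg
      push Not at hneg
      have h4 := h2 _ (cone_smul (show 0 ≤ u / f y from (div_pos_of_neg_of_neg hu hneg).le) hy)
      rw [map_smul, smul_eq_mul, div_mul_cancel₀ _ hneg.ne] at h4
      exact lt_irrefl _ h4
    have h5 : dualVec f ∈ cone T := by
      rw [← hT]
      intro s hs
      rw [dotProduct_comm, dual_vec]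
      exact h3 _ (toR_mem_cone hs)
    have h6 : 0 ≤ dualVec f ⬝ᵥ x := by
      obtain ⟨c, hc, h7⟩ := h5
      rw [h7, sum_dotProduct]
      refine Finset.sum_nonneg fun t ht => ?_
      rw [smul_dotProduct, smul_eq_mul]
      exact mul_nonneg (hc t) (hx t ht)
    rw [dual_vec] at h6
    linarith

/-! ### functionals -/

theorem dot_nonneg {C : Set (V n)} {ξ : Fin n → ℤ} (hξ : toR ξ ∈ dual C) {x : V n}
    (hx : x ∈ closure C) : 0 ≤ toR ξ ⬝ᵥ x :=
  Mori.closure (dual_sub_Mori hξ) hx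

theorem datum_pos {C : Set (V n)} (h : IsAmp C) {ξ : Fin n → ℤ} (hξ : toR ξ ∈ dual C) :
    (datumD h).Pos (weylF ξ) := hξ

theorem datum_int {C : Set (V n)} (h : IsAmp C) (ξ : Fin n → ℤ) : (datumD h).Int (weylF ξ) := by
  intro l hl
  obtain ⟨s, rfl⟩ := datum_memL.1 hl
  exact ⟨ξ ⬝ᵥ s, dot_toR ξ s⟩

theorem datumE_mem {G : Subgroup (GL (Fin n) ℤ)} {g : GL (Fin n) ℤ} (hg : g ∈ G) :
    datumE g ∈ datumG G := ⟨g, hg, fun _ => rfl⟩

theorem exists_min {C : Set (V n)} (h : IsAmp C) {G : Subgroup (GL (Fin n) ℤ)} (hG : Pres G C)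
    {ξ : Fin n → ℤ} (hξ : toR ξ ∈ dual C) {x : V n} (hx : x ∈ C) :
    ∃ f ∈ G, ∀ g ∈ G, toR ξ ⬝ᵥ act f x ≤ toR ξ ⬝ᵥ act g x := by
  obtain ⟨e, ⟨f, hf, he⟩, hmin⟩ := Pool.Agent.H32.Cone.Datum.exists_min (datum_pres h hG)
    (datum_pos h hξ) (datum_int h ξ) (x := x) hx
  refine ⟨f, hf, fun g hg => ?_⟩
  have h1 := hmin _ (datumE_mem hg)
  rw [he] at h1
  exact h1

/-- the elements of `G` which carry a point of `cone S ∩ C` to the Dirichlet cone form a finite set -/
theorem fin_min {C : Set (V n)} (h : IsAmp C) {G : Subgroup (GL (Fin n) ℤ)} (hG : Pres G C)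
    {ξ : Fin n → ℤ} (hξ : toR ξ ∈ dual C) {S : Finset (Fin n → ℤ)}
    (hS : ∀ s ∈ S, toR s ∈ closure C) :
    {g | g ∈ G ∧ ∃ x ∈ cone S, x ∈ C ∧ act g x ∈ Sig C G ξ}.Finite := by
  classical
  have hS' : ∀ s ∈ S.image toR, s ∈ (datumD h).L ∧ s ∈ closure (datumD h).C := by
    intro s hs
    obtain ⟨t, ht, rfl⟩ := Finset.mem_image.1 hs
    exact ⟨datum_memL.2 ⟨t, rfl⟩, hS t ht⟩
  have h1 := Pool.Agent.H32.Cone.Datum.minim_fin (datum_pres h hG) (datum_pos h hξ)
    (datum_int h ξ) hS'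
  refine Set.Finite.of_injOn (f := datumE) (t := _) ?_ ?_ h1
  · rintro g ⟨hg, x, hx, hxC, hxS⟩
    refine ⟨datumE_mem hg, x, ?_, hxC, ?_⟩
    · rw [datum_pcone]
      exact hx
    · rintro e ⟨k, hk, hke⟩
      have h2 := hxS.2 (k * g⁻¹) (G.mul_mem hk (G.inv_mem hg))
      rw [act_mul, act_inv_act] at h2
      rw [hke]
      exact h2
  · intro g _ g' _ hgg
    apply act_inj
    intro x
    exact congrArg (fun e : V n ≃ₗ[ℝ] V n => e x) hgg

/-! ### the Dirichlet cone -/

theorem dot_cont (z : V n) : Continuous fun x : V n => z ⬝ᵥ x := dual_cont z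

theorem sig_closed {C : Set (V n)} {G : Subgroup (GL (Fin n) ℤ)} {ξ : Fin n → ℤ} :
    IsClosed (Sig C G ξ) := by
  have : Sig C G ξ = closure C ∩ ⋂ g ∈ G, {x : V n | toR ξ ⬝ᵥ x ≤ toR ξ ⬝ᵥ act g x} := by
    ext x
    simp [Sig]
  rw [this]
  refine isClosed_closure.inter (isClosed_biInter fun g _ => ?_)
  exact isClosed_le (dot_cont _) ((dot_cont _).comp (act_cont g))

theorem sig_add {C : Set (V n)} (h : IsAmp C) {G : Subgroup (GL (Fin n) ℤ)} {ξ : Fin n → ℤ} {x y : V n}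
    (hx : x ∈ Sig C G ξ) (hy : y ∈ Sig C G ξ) : x + y ∈ Sig C G ξ := by
  refine ⟨h.closure_add _ hx.1 _ hy.1, fun g hg => ?_⟩
  rw [act_add, dotProduct_add, dotProduct_add]
  exact add_le_add (hx.2 g hg) (hy.2 g hg)

theorem sig_smul {C : Set (V n)} (h : IsAmp C) {G : Subgroup (GL (Fin n) ℤ)} {ξ : Fin n → ℤ} {x : V n}
    {t : ℝ} (ht : 0 ≤ t) (hx : x ∈ Sig C G ξ) : t • x ∈ Sig C G ξ := by
  refine ⟨h.closure_smul _ ht _ hx.1, fun g hg => ?_⟩
  rw [act_smul, dotProduct_smul, dotProduct_smul]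
  exact mul_le_mul_of_nonneg_left (hx.2 g hg) ht

/-- every point of `C` is carried to the Dirichlet cone -/
theorem sig_cover {C : Set (V n)} (h : IsAmp C) {G : Subgroup (GL (Fin n) ℤ)} (hG : Pres G C)
    {ξ : Fin n → ℤ} (hξ : toR ξ ∈ dual C) {x : V n} (hx : x ∈ C) :
    ∃ g ∈ G, act g x ∈ Sig C G ξ := by
  obtain ⟨f, hf, hmin⟩ := exists_min h hG hξ hx
  refine ⟨f, hf, subset_closure (hG f hf x hx), fun g hg => ?_⟩
  rw [← act_mul]
  exact hmin _ (G.mul_mem hg hf)

/-- the relative statement holds at the integral points of `C` -/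
theorem relAt_of_mem {C : Set (V n)} (h : IsAmp C) {G : Subgroup (GL (Fin n) ℤ)} {x : Fin n → ℤ}
    (hx0 : x ≠ 0) (hx : toR x ∈ C) : RelAt C G x := by
  classical
  obtain ⟨i0, hi0⟩ : ∃ i, x i ≠ 0 := by
    by_contra hcon
    push Not at hcon
    exact hx0 (funext hcon)
  have h1 : ∀ v : V n, ∃ K : ℕ, (K : ℝ) • toR x + v ∈ C := by
    intro v
    obtain ⟨ε, hε, h1⟩ := h.oc.exists_sub hx (-v)
    obtain ⟨K, hK⟩ := exists_nat_ge (1 / ε)
    refine ⟨K, ?_⟩
    have h2 : (1 / ε) • (toR x - ε • (-v)) ∈ C := h.smul _ (by positivity) _ h1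
    have h3 : (K : ℝ) • toR x + v = (1 / ε) • (toR x - ε • (-v)) + ((K : ℝ) - 1 / ε) • toR x := by
      rw [smul_sub, smul_neg, smul_neg, smul_smul, one_div, inv_mul_cancel₀ hε.ne', one_smul,
        sub_smul]
      abel
    rw [h3]
    exact h.oc.add_mem' h2 (h.oc.closure_smul (sub_nonneg.2 hK) (subset_closure hx))
  choose K hK using h1
  obtain ⟨M, hM⟩ : ∃ M : ℕ, ∀ i : Fin n, K (toR (Pi.single i (1 : ℤ))) ≤ M ∧
      K (toR (Pi.single i (-1 : ℤ))) ≤ M := by
    refine ⟨∑ i : Fin n, (K (toR (Pi.single i (1 : ℤ))) + K (toR (Pi.single i (-1 : ℤ)))), fun i => ?_⟩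
    have h2 := Finset.single_le_sum (f := fun i : Fin n => K (toR (Pi.single i (1 : ℤ))) +
      K (toR (Pi.single i (-1 : ℤ)))) (fun j _ => Nat.zero_le _) (Finset.mem_univ i)
    constructor
    · exact le_trans (Nat.le_add_right _ _) h2
    · exact le_trans (Nat.le_add_left _ _) h2
  have hM1 : ∀ i : Fin n, toR ((M : ℤ) • x + Pi.single i (1 : ℤ)) ∈ C := by
    intro i
    have h2 : toR ((M : ℤ) • x + Pi.single i (1 : ℤ)) = ((K (toR (Pi.single i (1 : ℤ))) : ℝ) • toR x +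
        toR (Pi.single i (1 : ℤ))) + ((M : ℝ) - K (toR (Pi.single i (1 : ℤ)))) • toR x := by
      rw [toR_add, toR_smul, sub_smul]
      push_cast
      abel
    rw [h2]
    refine h.oc.add_mem' (hK _) (h.oc.closure_smul (sub_nonneg.2 ?_) (subset_closure hx))
    exact_mod_cast (hM i).1
  have hM2 : ∀ i : Fin n, toR ((M : ℤ) • x + Pi.single i (-1 : ℤ)) ∈ C := by
    intro i
    have h2 : toR ((M : ℤ) • x + Pi.single i (-1 : ℤ)) = ((K (toR (Pi.single i (-1 : ℤ))) : ℝ) • toR x +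
        toR (Pi.single i (-1 : ℤ))) + ((M : ℝ) - K (toR (Pi.single i (-1 : ℤ)))) • toR x := by
      rw [toR_add, toR_smul, sub_smul]
      push_cast
      abel
    rw [h2]
    refine h.oc.add_mem' (hK _) (h.oc.closure_smul (sub_nonneg.2 ?_) (subset_closure hx))
    exact_mod_cast (hM i).2
  set S : Finset (Fin n → ℤ) := insert x (Finset.univ.image (fun i => (M : ℤ) • x + Pi.single i (1 : ℤ)) ∪
    Finset.univ.image (fun i => (M : ℤ) • x + Pi.single i (-1 : ℤ))) with hS
  refine ⟨S, ?_, fun A _ => ⟨1, G.one_mem, act_one _, M * ∑ i, |(A i : ℝ)|, ?_, ?_⟩⟩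
  · intro s hs
    rw [hS, Finset.mem_insert, Finset.mem_union] at hs
    rcases hs with rfl | hs | hs
    · exact subset_closure hx
    · obtain ⟨i, _, rfl⟩ := Finset.mem_image.1 hs
      exact subset_closure (hM1 i)
    · obtain ⟨i, _, rfl⟩ := Finset.mem_image.1 hs
      exact subset_closure (hM2 i)
  · exact mul_nonneg (Nat.cast_nonneg _) (Finset.sum_nonneg fun i _ => abs_nonneg _)
  · rw [act_one]
    have h2 : toR A + ((M : ℝ) * ∑ i, |(A i : ℝ)|) • toR x =
        ∑ i, (((A i : ℝ)) • toR (Pi.single i (1 : ℤ)) + (|(A i : ℝ)| * M) • toR x) := by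
      rw [Finset.sum_add_distrib, ← Finset.sum_smul, ← Finset.sum_mul, mul_comm (M : ℝ)]
      congr 1
      funext j
      rw [Finset.sum_apply, Finset.sum_eq_single j]
      · simp [toR]
      · intro i _ hij
        simp [toR, hij.symm]
      · intro hj
        exact absurd (Finset.mem_univ j) hj
    rw [h2]
    apply sum_mem_cone
    intro i _
    rcases le_total 0 (A i : ℝ) with h3 | h3
    · have h4 : ((A i : ℝ)) • toR (Pi.single i (1 : ℤ)) + (|(A i : ℝ)| * M) • toR x =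
          (A i : ℝ) • toR ((M : ℤ) • x + Pi.single i (1 : ℤ)) := by
        rw [abs_of_nonneg h3, toR_add, toR_smul, smul_add, smul_smul]
        push_cast
        abel
      rw [h4]
      refine cone_smul h3 (toR_mem_cone ?_)
      rw [hS]
      exact Finset.mem_insert_of_mem (Finset.mem_union_left _
        (Finset.mem_image_of_mem _ (Finset.mem_univ i)))
    · have h5 : (toR (Pi.single i (-1 : ℤ)) : V n) = - toR (Pi.single i (1 : ℤ)) := by
        funext j
        by_cases hj : j = i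
        · subst hj; simp [toR]
        · simp [toR, hj]
      have h4 : ((A i : ℝ)) • toR (Pi.single i (1 : ℤ)) + (|(A i : ℝ)| * M) • toR x =
          (-(A i : ℝ)) • toR ((M : ℤ) • x + Pi.single i (-1 : ℤ)) := by
        rw [abs_of_nonpos h3, toR_add, toR_smul, smul_add, smul_smul, h5, smul_neg, neg_smul, neg_neg]
        push_cast
        abel
      rw [h4]
      refine cone_smul (by linarith) (toR_mem_cone ?_)
      rw [hS]
      exact Finset.mem_insert_of_mem (Finset.mem_union_right _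
        (Finset.mem_image_of_mem _ (Finset.mem_univ i)))

theorem sig_ne {C : Set (V n)} (h : IsAmp C) {G : Subgroup (GL (Fin n) ℤ)} (hG : Pres G C)
    {ξ : Fin n → ℤ} (hξ : toR ξ ∈ dual C) : ∃ x, x ∈ C ∧ x ∈ Sig C G ξ := by
  obtain ⟨x, hx⟩ := h.ne
  obtain ⟨g, hg, h1⟩ := sig_cover h hG hξ hx
  exact ⟨_, hG g hg x hx, h1⟩

/-- the Dirichlet cone is the closure of its points in `C` -/
theorem sig_closure {C : Set (V n)} (h : IsAmp C) {G : Subgroup (GL (Fin n) ℤ)} (hG : Pres G C)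
    {ξ : Fin n → ℤ} (hξ : toR ξ ∈ dual C) {x : V n} (hx : x ∈ Sig C G ξ) :
    x ∈ closure (C ∩ Sig C G ξ) := by
  obtain ⟨q, hq, hqS⟩ := sig_ne h hG hξ
  have hlim : Filter.Tendsto (fun n : ℕ => x + (1 / ((n : ℝ) + 1)) • q) Filter.atTop (nhds x) := by
    have h1 := (tendsto_one_div_add_atTop_nhds_zero_nat (𝕜 := ℝ)).smul_const q
    rw [zero_smul] at h1
    have h2 := h1.const_add x
    rwa [add_zero] at h2
  refine mem_closure_of_tendsto hlim (Filter.Eventually.of_forall fun k => ⟨?_, ?_⟩)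
  · exact h.add_mem _ hx.1 _ (h.smul _ (by positivity) q hq)
  · exact sig_add h hx (sig_smul h (by positivity) hqS)

end Pool.Agent.H83.DC
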