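import Pool.Agent.H83.DC.Dense

/-!
# The descent criterion: the relative statements and the descent give a fundamental domain
-/

set_option autoImplicit false

namespace Pool.Agent.H83.DC

open Pool.Agent.H57.KM Pool.Agent.H20.FV

variable {n : ℕ}

/-- from the relative statement at integral points to real points of the hull of the rational points -/
theorem rel_real {C : Set (V n)} (h : IsAmp C) {G : Subgroup (GL (Fin n) ℤ)} (hG : Pres G C)
    {ξ : Fin n → ℤ} (hξ : toR ξ ∈ dual C) (hR : Rel C G) {x : V n} (hx : x ∈ Plus C) (hx0 : x ≠ 0) :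
    ∃ P : Finset (Fin n → ℤ), (∀ s ∈ P, toR s ∈ closure C) ∧
      ∀ A : Fin n → ℤ, toR A ∈ C → ∃ g ∈ G, act g x ∈ cone P ∧ ∃ t : ℝ, 0 ≤ t ∧
        act g (toR A + t • x) ∈ cone P := by
  classical
  have hx' : x ∈ (datumD h).Plus := by
    rw [datum_plus]
    exact hx
  obtain ⟨T, hT, c, hc, hxc⟩ := hx'
  obtain ⟨S0, hS0⟩ := datum_lift (fun t ht => (hT t ht).1)
  subst hS0
  rw [Finset.sum_image (fun a _ b _ h => toR_inj h)] at hxc
  -- the generators with positive coefficients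
  set S1 := S0.filter fun s => 0 < c (toR s) with hS1
  have hS1c : ∀ s ∈ S1, toR s ∈ closure C ∧ 0 < c (toR s) := by
    intro s hs
    rw [hS1, Finset.mem_filter] at hs
    exact ⟨(hT _ (Finset.mem_image_of_mem _ hs.1)).2, hs.2⟩
  have hxs : x = ∑ s ∈ S1, c (toR s) • toR s := by
    rw [hxc, hS1, Finset.sum_filter]
    refine Finset.sum_congr rfl fun s hs => ?_
    split_ifs with h1
    · rfl
    · have h2 := hc _ (Finset.mem_image_of_mem toR hs)
      have h3 : c (toR s) = 0 := le_antisymm (not_lt.1 h1) h2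
      rw [h3, zero_smul]
  obtain ⟨x0, hx0d⟩ : ∃ x0 : Fin n → ℤ, x0 = ∑ s ∈ S1, s := ⟨_, rfl⟩
  have hx0R : toR x0 = ∑ s ∈ S1, toR s := by rw [hx0d, toR_sum]
  have hx0C : toR x0 ∈ closure C := by
    rw [hx0R]
    exact h.oc.sum_closure _ _ fun s hs => (hS1c s hs).1
  have hx00 : x0 ≠ 0 := by
    intro h0
    apply hx0
    have h1 : ∑ s ∈ S1, toR ξ ⬝ᵥ toR s = 0 := by
      rw [← dotProduct_sum, ← hx0R, h0, toR_zero, dotProduct_zero]
    have h2 := (Finset.sum_eq_zero_iff_of_nonneg fun s hs => dot_nonneg hξ (hS1c s hs).1).1 h1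
    rw [hxs]
    apply Finset.sum_eq_zero
    intro s hs
    by_contra hcon
    have h3 : (toR s : V n) ≠ 0 := fun h4 => hcon (by rw [h4, smul_zero])
    exact (hξ _ (hS1c s hs).1 h3).ne' (h2 s hs)
  have hRx : RelAt C G x0 := by
    by_cases hxC : toR x0 ∈ C
    · exact relAt_of_mem h hx00 hxC
    · exact hR x0 hx00 hx0C hxC
  obtain ⟨S, hS, hA⟩ := hRx
  have hE := fin_lat h hξ (toR ξ ⬝ᵥ toR x0)
  have hS1ne : S1.Nonempty := by
    rw [Finset.nonempty_iff_ne_empty]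
    intro h0
    apply hx00
    rw [hx0d, h0, Finset.sum_empty]
  obtain ⟨s0, hs0, hmin⟩ := Finset.exists_min_image S1 (fun s => c (toR s)) hS1ne
  obtain ⟨a, ha⟩ : ∃ a : ℝ, a = c (toR s0) := ⟨_, rfl⟩
  have ha0 : 0 < a := by
    rw [ha]
    exact (hS1c s0 hs0).2
  refine ⟨S ∪ hE.toFinset, ?_, ?_⟩
  · intro s hs
    rcases Finset.mem_union.1 hs with h1 | h1
    · exact hS s h1
    · exact (hE.mem_toFinset.1 h1).1
  · intro A hAC
    obtain ⟨g, hg, hgx, t, ht, h1⟩ := hA A hAC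
    have h2 : ∀ s ∈ S1, act g (toR s) ∈ cone (S ∪ hE.toFinset) := by
      intro s hs
      obtain ⟨w, hw⟩ := exists_toR_act g s
      rw [← hw]
      apply cone_mono Finset.subset_union_right
      apply toR_mem_cone
      rw [Set.Finite.mem_toFinset]
      refine ⟨?_, ?_⟩
      · rw [hw]
        exact hG.closure g hg _ (hS1c s hs).1
      · have h3 : toR x0 = toR s + ∑ u ∈ S1.erase s, toR u := by
          rw [hx0R, Finset.add_sum_erase _ _ hs]
        have h4 : ∑ u ∈ S1.erase s, toR u ∈ closure C :=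
          h.oc.sum_closure _ _ fun u hu => (hS1c u (Finset.mem_of_mem_erase hu)).1
        have h5 := dot_nonneg hξ (hG.closure g hg _ h4)
        have h6 : toR ξ ⬝ᵥ toR x0 = toR ξ ⬝ᵥ act g (toR s) +
            toR ξ ⬝ᵥ act g (∑ u ∈ S1.erase s, toR u) := by
          rw [← dotProduct_add, ← act_add, ← h3, hgx]
        rw [hw, h6]
        linarith
    refine ⟨g, hg, ?_, t / a, by positivity, ?_⟩
    · rw [hxs, act_sum]
      apply sum_mem_cone
      intro s hs
      rw [act_smul]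
      exact cone_smul (hS1c s hs).2.le (h2 s hs)
    · have h3 : toR A + (t / a) • x = (toR A + t • toR x0) +
          ∑ s ∈ S1, (t / a * c (toR s) - t) • toR s := by
        have h4 : ∑ s ∈ S1, (t / a * c (toR s) - t) • toR s = (t / a) • x - t • toR x0 := by
          rw [hxs, hx0R, Finset.smul_sum, Finset.smul_sum, ← Finset.sum_sub_distrib]
          refine Finset.sum_congr rfl fun s _ => ?_
          rw [sub_smul, smul_smul]
        rw [h4]
        abel
      rw [h3, act_add, act_sum]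
      refine cone_add (cone_mono Finset.subset_union_left h1) ?_
      apply sum_mem_cone
      intro s hs
      rw [act_smul]
      refine cone_smul ?_ (h2 s hs)
      have h5 : a ≤ c (toR s) := by
        rw [ha]
        exact hmin s hs
      have h6 : t / a * a ≤ t / a * c (toR s) := mul_le_mul_of_nonneg_left h5 (by positivity)
      rw [div_mul_cancel₀ _ ha0.ne'] at h6
      linarith

/-- near a point of the Dirichlet cone which is in the hull of the rational points, the Dirichlet cone is contained in a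
rational polyhedral cone -/
theorem sig_local {C : Set (V n)} (h : IsAmp C) {G : Subgroup (GL (Fin n) ℤ)} (hG : Pres G C)
    {ξ : Fin n → ℤ} (hξ : toR ξ ∈ dual C) (hR : Rel C G) {x : V n} (hx : x ∈ Plus C) (hx0 : x ≠ 0)
    (hxS : x ∈ Sig C G ξ) :
    ∃ T : Finset (Fin n → ℤ), (∀ s ∈ T, toR s ∈ closure C) ∧ ∃ U : Set (V n), IsOpen U ∧ x ∈ U ∧
      ∀ y ∈ U, y ∈ Sig C G ξ → y ∈ cone T := by
  classical
  obtain ⟨P, hP, hA⟩ := rel_real h hG hξ hR hx hx0
  have hF0 := fin_min h hG hξ hP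
  set F : Set (GL (Fin n) ℤ) := {g | (g ∈ G ∧ ∃ x ∈ cone P, x ∈ C ∧ act g x ∈ Sig C G ξ) ∧
    x ∈ cone (tr g P)} with hFd
  have hF : F.Finite := hF0.subset fun g hg => hg.1
  have hFG : ∀ g ∈ F, g ∈ G := fun g hg => hg.1.1
  -- half spaces
  have hW : ∀ g : GL (Fin n) ℤ, ∃ T : Finset (Fin n → ℤ), g ∈ G →
      ∀ x : V n, x ∈ cone (tr g P) ↔ ∀ t ∈ T, 0 ≤ toR t ⬝ᵥ x := by
    intro g
    by_cases hg : g ∈ G
    · obtain ⟨T, hT⟩ := halfspaces (cone_closed h (tr_closure hG hg hP))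
      exact ⟨T, fun _ => hT⟩
    · exact ⟨∅, fun h' => absurd h' hg⟩
  choose W hW using hW
  let L : GL (Fin n) ℤ → Set (V n) := fun g => {y | ∀ t ∈ W g, toR t ⬝ᵥ x = 0 → 0 ≤ toR t ⬝ᵥ y}
  have hLcl : ∀ g, IsClosed (L g) := by
    intro g
    have h1 : L g = ⋂ t ∈ W g, {y : V n | toR t ⬝ᵥ x = 0 → 0 ≤ toR t ⬝ᵥ y} := by
      ext y
      simp [L]
    rw [h1]
    refine isClosed_biInter fun t _ => ?_
    by_cases h0 : toR t ⬝ᵥ x = 0
    · have h2 : {y : V n | toR t ⬝ᵥ x = 0 → 0 ≤ toR t ⬝ᵥ y} = {y : V n | 0 ≤ toR t ⬝ᵥ y} := by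
        ext y
        simp [h0]
      rw [h2]
      exact isClosed_le continuous_const (dot_cont _)
    · have h2 : {y : V n | toR t ⬝ᵥ x = 0 → 0 ≤ toR t ⬝ᵥ y} = Set.univ := by
        ext y
        simp [h0]
      rw [h2]
      exact isClosed_univ
  have hcl : IsClosed (⋃ g ∈ F, L g) := hF.isClosed_biUnion fun g _ => hLcl g
  have hsub : Sig C G ξ ⊆ ⋃ g ∈ F, L g := by
    intro y hy
    refine closure_minimal ?_ hcl (sig_rat h hG hξ hy)
    rintro _ ⟨A, c, hc, hAC, hAS, rfl⟩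
    obtain ⟨g, hg, hgx, t, ht, hgA⟩ := hA A hAC
    have hsum : toR A + t • x ∈ Sig C G ξ := sig_add h hAS (sig_smul h ht hxS)
    have hsumC : toR A + t • x ∈ C := by
      rw [add_comm]
      exact h.add_mem _ (h.closure_smul _ ht _ hxS.1) _ hAC
    have hxg : x ∈ cone (tr g⁻¹ P) := by
      have h1 := act_cone (g := g⁻¹) hgx
      rwa [act_inv_act] at h1
    have hAg : toR A + t • x ∈ cone (tr g⁻¹ P) := by
      have h1 := act_cone (g := g⁻¹) hgA
      rwa [act_inv_act] at h1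
    have hgF : g⁻¹ ∈ F := by
      refine ⟨⟨G.inv_mem hg, act g (toR A + t • x), hgA, hG g hg _ hsumC, ?_⟩, hxg⟩
      rw [act_inv_act]
      exact hsum
    refine Set.mem_iUnion₂.2 ⟨g⁻¹, hgF, fun u hu hu0 => ?_⟩
    have h1 := (hW g⁻¹ (G.inv_mem hg) _).1 hAg u hu
    rw [dotProduct_add, dotProduct_smul, hu0, smul_zero, add_zero] at h1
    rw [dotProduct_smul, smul_eq_mul]
    exact mul_nonneg hc h1
  refine ⟨hF.toFinset.biUnion fun g => tr g P, ?_, ⋂ g ∈ F, {y | ∀ t ∈ W g, 0 < toR t ⬝ᵥ x → 0 < toR t ⬝ᵥ y},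
    ?_, ?_, ?_⟩
  · intro s hs
    obtain ⟨g, hg, hs⟩ := Finset.mem_biUnion.1 hs
    exact tr_closure hG (hFG g (hF.mem_toFinset.1 hg)) hP s hs
  · refine hF.isOpen_biInter fun g _ => ?_
    have h1 : {y : V n | ∀ t ∈ W g, 0 < toR t ⬝ᵥ x → 0 < toR t ⬝ᵥ y} =
        ⋂ t ∈ W g, {y : V n | 0 < toR t ⬝ᵥ x → 0 < toR t ⬝ᵥ y} := by
      ext y
      simp
    rw [h1]
    refine isOpen_biInter_finset fun t _ => ?_
    by_cases h0 : 0 < toR t ⬝ᵥ x
    · have h2 : {y : V n | 0 < toR t ⬝ᵥ x → 0 < toR t ⬝ᵥ y} = {y : V n | 0 < toR t ⬝ᵥ y} := by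
        ext y
        simp [h0]
      rw [h2]
      exact isOpen_lt continuous_const (dot_cont _)
    · have h2 : {y : V n | 0 < toR t ⬝ᵥ x → 0 < toR t ⬝ᵥ y} = Set.univ := by
        ext y
        simp [h0]
      rw [h2]
      exact isOpen_univ
  · exact Set.mem_iInter₂.2 fun g _ t _ h0 => h0
  · intro y hyU hyS
    obtain ⟨g, hg, hyL⟩ := Set.mem_iUnion₂.1 (hsub hyS)
    have h1 := Set.mem_iInter₂.1 hyU g hg
    refine cone_mono (Finset.subset_biUnion_of_mem (fun g => tr g P) (hF.mem_toFinset.2 hg)) ?_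
    rw [hW g (hFG g hg)]
    intro t ht
    have h2 := (hW g (hFG g hg) x).1 hg.2 t ht
    rcases h2.eq_or_lt with h3 | h3
    · exact hyL t ht h3.symm
    · exact (h1 t ht h3).le

theorem cov_of_rel {C : Set (V n)} (h : IsAmp C) {G : Subgroup (GL (Fin n) ℤ)} (hG : Pres G C)
    {ξ : Fin n → ℤ} (hξ : toR ξ ∈ dual C) (hR : Rel C G) (hD : Desc C G ξ) : Cov C G := by
  classical
  have hplus : ∀ x ∈ Sig C G ξ, x ∈ Plus C := by
    intro x hx
    by_contra hcon
    obtain ⟨g, hg, h1⟩ := hD x hx.1 hcon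
    exact absurd (hx.2 g hg) (not_le.2 h1)
  have key : ∃ T : Finset (Fin n → ℤ), (∀ s ∈ T, toR s ∈ closure C) ∧
      ∀ y ∈ closure C ∩ Metric.sphere (0 : V n) 1, y ∈ Sig C G ξ → y ∈ cone T := by
    refine (dual_cpt C).induction_on (p := fun S => ∃ T : Finset (Fin n → ℤ),
      (∀ s ∈ T, toR s ∈ closure C) ∧ ∀ y ∈ S, y ∈ Sig C G ξ → y ∈ cone T) ?_ ?_ ?_ ?_
    · exact ⟨∅, fun s hs => absurd hs (Finset.notMem_empty s), fun y hy => absurd hy (Set.notMem_empty y)⟩
    · rintro s t hst ⟨T, h1, h2⟩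
      exact ⟨T, h1, fun y hy => h2 y (hst hy)⟩
    · rintro s t ⟨T, h1, h2⟩ ⟨T', h1', h2'⟩
      refine ⟨T ∪ T', fun s hs => ?_, ?_⟩
      · rcases Finset.mem_union.1 hs with h3 | h3
        · exact h1 s h3
        · exact h1' s h3
      · rintro y (hy | hy) hyS
        · exact cone_mono Finset.subset_union_left (h2 y hy hyS)
        · exact cone_mono Finset.subset_union_right (h2' y hy hyS)
    · rintro x ⟨hx, hx1⟩
      have hx0 : x ≠ 0 := by
        intro h
        rw [h, mem_sphere_iff_norm, sub_zero, norm_zero] at hx1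
        exact zero_ne_one hx1
      by_cases hxS : x ∈ Sig C G ξ
      · obtain ⟨T, hT, U, hU, hxU, h1⟩ := sig_local h hG hξ hR (hplus x hxS) hx0 hxS
        exact ⟨U, mem_nhdsWithin_of_mem_nhds (hU.mem_nhds hxU), T, hT, h1⟩
      · refine ⟨(Sig C G ξ)ᶜ, mem_nhdsWithin_of_mem_nhds (sig_closed.isOpen_compl.mem_nhds hxS), ∅,
          fun s hs => absurd hs (Finset.notMem_empty s), fun y hy hyS => absurd hyS hy⟩
  obtain ⟨T, hT, h1⟩ := key
  refine ⟨T, hT, fun x hx => ?_⟩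
  obtain ⟨g, hg, hgS⟩ := sig_cover h hG hξ hx
  refine Set.mem_iUnion₂.2 ⟨g⁻¹, G.inv_mem hg, act g x, ?_, act_inv_act g x⟩
  by_cases h0 : act g x = 0
  · rw [h0]
    exact zero_mem_cone T
  · have hn : 0 < ‖act g x‖ := norm_pos_iff.2 h0
    have h2 := h1 _ (dual_norm h hgS.1 h0) (sig_smul h (by positivity) hgS)
    have h3 : act g x = ‖act g x‖ • (‖act g x‖⁻¹ • act g x) := by
      rw [smul_smul, mul_inv_cancel₀ hn.ne', one_smul]
    rw [h3]
    exact cone_smul hn.le h2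

end Pool.Agent.H83.DC
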