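import Pool.Agent.H83.DC.Base

/-!
# The descent criterion: a fundamental domain gives the relative statements and the descent
-/

set_option autoImplicit false

namespace Pool.Agent.H83.DC

open Pool.Agent.H57.KM Pool.Agent.H20.FV

variable {n : ℕ}

/-- if `G` has a fundamental domain, then the Dirichlet cone is contained in a rational polyhedral cone -/
theorem sig_sub_cone {C : Set (V n)} (h : IsAmp C) {G : Subgroup (GL (Fin n) ℤ)} (hG : Pres G C)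
    {ξ : Fin n → ℤ} (hξ : toR ξ ∈ dual C) (hcov : Cov C G) :
    ∃ T : Finset (Fin n → ℤ), (∀ s ∈ T, toR s ∈ closure C) ∧ Sig C G ξ ⊆ cone T := by
  classical
  obtain ⟨S, hS, hcov⟩ := hcov
  have hF := fin_min h hG hξ hS
  set F : Set (GL (Fin n) ℤ) := {g | g ∈ G ∧ ∃ x ∈ cone S, x ∈ C ∧ act g x ∈ Sig C G ξ} with hFd
  have hcl : IsClosed (⋃ g ∈ F, cone (tr g S)) :=
    hF.isClosed_biUnion fun g hg => cone_closed h (tr_closure hG hg.1 hS)
  have h1 : C ∩ Sig C G ξ ⊆ ⋃ g ∈ F, cone (tr g S) := by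
    rintro x ⟨hxC, hx⟩
    obtain ⟨g, hg, y, hy, hgy⟩ := Set.mem_iUnion₂.1 (hcov hxC)
    have hyC : y ∈ C := by
      rw [← hgy] at hxC
      exact (hG.iff hg y).1 hxC
    refine Set.mem_iUnion₂.2 ⟨g, ⟨hg, y, hy, hyC, ?_⟩, ?_⟩
    · rw [hgy]
      exact hx
    · rw [← hgy]
      exact act_cone hy
  refine ⟨hF.toFinset.biUnion fun g => tr g S, ?_, ?_⟩
  · intro s hs
    obtain ⟨g, hg, hs⟩ := Finset.mem_biUnion.1 hs
    exact tr_closure hG (hF.mem_toFinset.1 hg).1 hS s hs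
  · intro x hx
    have h2 := closure_minimal h1 hcl (sig_closure h hG hξ hx)
    obtain ⟨g, hg, hxg⟩ := Set.mem_iUnion₂.1 h2
    refine cone_mono ?_ hxg
    exact Finset.subset_biUnion_of_mem (fun g => tr g S) (hF.mem_toFinset.2 hg)

theorem cone_sub_plus {C : Set (V n)} (h : IsAmp C) {T : Finset (Fin n → ℤ)}
    (hT : ∀ s ∈ T, toR s ∈ closure C) : cone T ⊆ Plus C := by
  classical
  intro x hx
  have h1 : x ∈ (datumD h).Plus := by
    refine ⟨T.image toR, ?_, ?_⟩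
    · intro t ht
      obtain ⟨s, hs, rfl⟩ := Finset.mem_image.1 ht
      exact ⟨datum_memL.2 ⟨s, rfl⟩, hT s hs⟩
    · rw [datum_pcone]
      exact hx
  rw [datum_plus] at h1
  exact h1

theorem desc_of_cov {C : Set (V n)} (h : IsAmp C) {G : Subgroup (GL (Fin n) ℤ)} (hG : Pres G C)
    {ξ : Fin n → ℤ} (hξ : toR ξ ∈ dual C) (hcov : Cov C G) : Desc C G ξ := by
  obtain ⟨T, hT, hsub⟩ := sig_sub_cone h hG hξ hcov
  intro x hx hxP
  by_contra hcon
  push Not at hcon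
  exact hxP (cone_sub_plus h hT (hsub ⟨hx, hcon⟩))

/-- the relative statement is invariant under `G` -/
theorem relAt_act {C : Set (V n)} {G : Subgroup (GL (Fin n) ℤ)} (hG : Pres G C)
    {h0 : GL (Fin n) ℤ} (hh : h0 ∈ G) {x y : Fin n → ℤ} (hxy : toR y = act h0 (toR x))
    (hR : RelAt C G y) : RelAt C G x := by
  obtain ⟨S, hS, h1⟩ := hR
  refine ⟨tr h0⁻¹ S, tr_closure hG (G.inv_mem hh) hS, fun A hA => ?_⟩
  obtain ⟨B, hB⟩ := exists_toR_act h0 A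
  obtain ⟨g, hg, hgy, t, ht, h2⟩ := h1 B (by rw [hB]; exact hG h0 hh _ hA)
  refine ⟨h0⁻¹ * g * h0, G.mul_mem (G.mul_mem (G.inv_mem hh) hg) hh, ?_, t, ht, ?_⟩
  · rw [act_mul, ← hxy, act_mul, hgy, hxy, act_inv_act]
  · have h3 : act (h0⁻¹ * g * h0) (toR A + t • toR x) = act h0⁻¹ (act g (toR B + t • toR y)) := by
      rw [act_mul, act_mul, act_add, act_smul, ← hB, ← hxy]
    rw [h3]
    exact act_cone h2

/-- an integral point of the closure of `C` is carried to the Dirichlet cone -/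
theorem sig_cover_int {C : Set (V n)} {G : Subgroup (GL (Fin n) ℤ)} (hG : Pres G C)
    {ξ : Fin n → ℤ} (hξ : toR ξ ∈ dual C) {x : Fin n → ℤ} (hx : toR x ∈ closure C) :
    ∃ g ∈ G, act g (toR x) ∈ Sig C G ξ := by
  have key : ∀ g : G, ∃ m : ℕ, toR ξ ⬝ᵥ act g.1 (toR x) = m := by
    intro g
    have h1 := dot_nonneg hξ (hG.closure g.1 g.2 _ hx)
    rw [act_toR, dot_toR] at h1 ⊢
    have h2 : 0 ≤ ξ ⬝ᵥ (g.1 : Matrix (Fin n) (Fin n) ℤ).mulVec x := by exact_mod_cast h1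
    obtain ⟨m, hm⟩ := Int.eq_ofNat_of_zero_le h2
    exact ⟨m, by rw [hm]; simp⟩
  choose φ hφ using key
  obtain ⟨m, ⟨g0, hg0⟩, hmin⟩ := wellFounded_lt.has_min (Set.range φ) ⟨_, ⟨1, rfl⟩⟩
  refine ⟨g0.1, g0.2, hG.closure _ g0.2 _ hx, fun g hg => ?_⟩
  rw [← act_mul]
  have h3 := hmin (φ (⟨g, hg⟩ * g0)) ⟨_, rfl⟩
  rw [hφ g0, hg0]
  have h4 := hφ (⟨g, hg⟩ * g0)
  change toR ξ ⬝ᵥ act (g * g0.1) (toR x) = _ at h4
  rw [h4]
  exact_mod_cast not_lt.1 h3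

theorem rel_of_cov {C : Set (V n)} (h : IsAmp C) {G : Subgroup (GL (Fin n) ℤ)} (hG : Pres G C)
    {ξ : Fin n → ℤ} (hξ : toR ξ ∈ dual C) (hcov : Cov C G) : Rel C G := by
  classical
  obtain ⟨T, hT, hsub⟩ := sig_sub_cone h hG hξ hcov
  intro x _ hx _
  obtain ⟨h0, hh0, hS⟩ := sig_cover_int hG hξ hx
  obtain ⟨y, hy⟩ := exists_toR_act h0 x
  rw [← hy] at hS
  refine relAt_act hG hh0 hy ?_
  -- the finitely many integral points with the value of `y`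
  have hYf := fin_lat h hξ (toR ξ ⬝ᵥ toR y)
  have hch : ∀ w : Fin n → ℤ, ∃ k ∈ G, (∃ k' ∈ G, toR w = act k' (toR y)) → toR w = act k (toR y) := by
    intro w
    by_cases hw : ∃ k' ∈ G, toR w = act k' (toR y)
    · obtain ⟨k', hk', h1⟩ := hw
      exact ⟨k', hk', fun _ => h1⟩
    · exact ⟨1, G.one_mem, fun h' => absurd h' hw⟩
  choose k hk hk2 using hch
  refine ⟨hYf.toFinset.biUnion fun w => tr (k w)⁻¹ T, ?_, ?_⟩
  · intro s hs
    obtain ⟨w, _, hs⟩ := Finset.mem_biUnion.1 hs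
    exact tr_closure hG (G.inv_mem (hk w)) hT s hs
  · intro A hA
    obtain ⟨N, hN⟩ := exists_nat_gt (toR ξ ⬝ᵥ toR A)
    have hN0 : (0 : ℝ) ≤ N := Nat.cast_nonneg N
    have hC : toR A + (N : ℝ) • toR y ∈ C := by
      rw [add_comm]
      exact h.add_mem _ (h.closure_smul _ hN0 _ hS.1) _ hA
    obtain ⟨g, hg, hgS⟩ := sig_cover h hG hξ hC
    have h1 := hgS.2 g⁻¹ (G.inv_mem hg)
    rw [act_inv_act, act_add, act_smul, dotProduct_add, dotProduct_add, dotProduct_smul,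
      dotProduct_smul, smul_eq_mul, smul_eq_mul] at h1
    have h2 := hS.2 g hg
    have h3 : 0 ≤ toR ξ ⬝ᵥ act g (toR A) := dot_nonneg hξ (subset_closure (hG g hg _ hA))
    obtain ⟨w, hw⟩ := exists_toR_act g y
    have h4 : toR ξ ⬝ᵥ toR w ≤ toR ξ ⬝ᵥ toR y := by
      by_contra hcon
      push Not at hcon
      have h5 : toR ξ ⬝ᵥ toR y + 1 ≤ toR ξ ⬝ᵥ toR w := by
        rw [dot_toR, dot_toR] at hcon ⊢
        exact_mod_cast hcon
      rw [← hw] at h1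
      have h6 : (N : ℝ) * (toR ξ ⬝ᵥ toR y + 1) ≤ (N : ℝ) * (toR ξ ⬝ᵥ toR w) :=
        mul_le_mul_of_nonneg_left h5 hN0
      linarith
    have hwY : w ∈ hYf.toFinset := by
      rw [Set.Finite.mem_toFinset]
      refine ⟨?_, h4⟩
      rw [hw]
      exact hG.closure g hg _ hS.1
    have hkw : toR w = act (k w) (toR y) := hk2 w ⟨g, hg, hw⟩
    refine ⟨(k w)⁻¹ * g, G.mul_mem (G.inv_mem (hk w)) hg, ?_, N, hN0, ?_⟩
    · rw [act_mul, ← hw, hkw, act_inv_act]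
    · rw [act_mul]
      refine cone_mono (Finset.subset_biUnion_of_mem (fun w => tr (k w)⁻¹ T) hwY) ?_
      exact act_cone (hsub hgS)

end Pool.Agent.H83.DC
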