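import Pool.Agent.H83.DC.RDefs
import Pool.Agent.H83.DC.ToRel
import Pool.Agent.H83.DC.OfRel
import Pool.Agent.H54.RV.Main

/-!
# The descent criterion for real varieties: the proof
-/

set_option autoImplicit false

namespace Pool.Agent.H83.DC

open AlgebraicGeometry Pool.Agent.H57.KM Pool.Agent.H20.FV Pool.Agent.H54.RV

variable {k K : Type} [Field k] [Field K] [Algebra k K] [IsAlgClosed k] [CharZero k] {X : Mod k K}

theorem pt_toR {n : ℕ} (b : LatB X n) (s : Fin n → ℤ) : pt b (toR s) = pt b (fun i => (s i : ℝ)) := rfl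

omit [IsAlgClosed k] [CharZero k] in
theorem pt_zero {n : ℕ} (b : LatB X n) : pt b (0 : V n) = 0 := by
  unfold pt
  exact Finset.sum_eq_zero fun i _ => by rw [Pi.zero_apply, zero_smul]

omit [IsAlgClosed k] [CharZero k] in
theorem pt_sum {n : ℕ} (b : LatB X n) {ι : Type*} (T : Finset ι) (x : ι → V n) :
    pt b (∑ i ∈ T, x i) = ∑ i ∈ T, pt b (x i) := by
  classical
  induction T using Finset.induction_on with
  | empty => rw [Finset.sum_empty, Finset.sum_empty, pt_zero]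
  | insert a s ha ih => rw [Finset.sum_insert ha, Finset.sum_insert ha, pt_add, ih]

/-- the functional in the coordinates -/
theorem deg_coord (hX : IsVar X) {n : ℕ} (b : LatB X n) {ξ : N1 X →ₗ[ℝ] ℝ} (hξ : IsDeg ξ) :
    ∃ z : Fin n → ℤ, ∀ x : V n, ξ (pt b x) = toR z ⬝ᵥ x := by
  have h1 : ∀ i, ∃ m : ℤ, ξ (b i : N1 X) = m := by
    intro i
    obtain ⟨D, hD⟩ := (mem_Lat hX (b i : N1 X)).1 (b i).2
    rw [← hD]
    exact hξ.int D
  choose z hz using h1
  refine ⟨z, fun x => ?_⟩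
  unfold pt
  rw [map_sum]
  refine Finset.sum_congr rfl fun i _ => ?_
  rw [map_smul, hz, smul_eq_mul, mul_comm]
  rfl

/-- the convex hull of the rational nef classes in the coordinates -/
theorem plus_iff (hX : IsVar X) [FiniteDimensional ℝ (N1 X)] {n : ℕ} (b : LatB X n) (x : V n) :
    x ∈ Plus (ampR b) ↔ pt b x ∈ NefP X := by
  have hbij := pt_bij hX b
  let L : V n →ₗ[ℝ] N1 X :=
    { toFun := pt b
      map_add' := pt_add b
      map_smul' := fun c x => pt_smul b c x }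
  have h1 : L '' {x | x ∈ closure (ampR b) ∧ ∃ q : Fin n → ℚ, x = qR q} = NefC X ∩ RatC X := by
    ext v
    constructor
    · rintro ⟨y, ⟨hy1, hy2⟩, rfl⟩
      exact ⟨(cl_ampR hX b y).1 hy1, (rat_pt hX b y).2 hy2⟩
    · rintro ⟨hv1, hv2⟩
      obtain ⟨y, rfl⟩ := hbij.2 v
      exact ⟨y, ⟨(cl_ampR hX b y).2 hv1, (rat_pt hX b y).1 hv2⟩, rfl⟩
  unfold Plus NefP
  rw [← h1, ← L.image_convexHull]
  constructor
  · intro hx
    exact ⟨x, hx, rfl⟩
  · rintro ⟨y, hy, hyx⟩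
    have : y = x := hbij.1 hyx
    rw [← this]
    exact hy

theorem desc_iff (hX : IsVar X) [FiniteDimensional ℝ (N1 X)] (Γ : Subgroup (MAut X)) {n : ℕ}
    (b : LatB X n) {ξ : N1 X →ₗ[ℝ] ℝ} {z : Fin n → ℤ} (hz : ∀ x : V n, ξ (pt b x) = toR z ⬝ᵥ x) :
    DescS (ActS Γ) ξ ↔ Desc (ampR b) (grpR Γ b) z := by
  have hbij := pt_bij hX b
  constructor
  · intro h x hx hxP
    obtain ⟨_, ⟨g, hg, rfl⟩, h1⟩ := h (pt b x) ((cl_ampR hX b x).1 hx)
      (fun h' => hxP ((plus_iff hX b x).2 h'))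
    obtain ⟨A, hA⟩ := act_gl hX b g
    refine ⟨A, ⟨g, hg, hA⟩, ?_⟩
    rw [hA, hz, hz] at h1
    exact h1
  · intro h v hv hvP
    obtain ⟨x, rfl⟩ := hbij.2 v
    obtain ⟨A, ⟨g, hg, hA⟩, h1⟩ := h x ((cl_ampR hX b x).2 hv)
      (fun h' => hvP ((plus_iff hX b x).1 h'))
    refine ⟨g.act, ⟨g, hg, rfl⟩, ?_⟩
    rw [hA, hz, hz]
    exact h1

/-- finite sets of integral vectors and finite families of classes -/
theorem cone_fam {n m : ℕ} (s : Fin m → Fin n → ℤ) (x : V n) :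
    x ∈ cone (Finset.univ.image s) ↔ ∃ c : Fin m → ℝ, (∀ i, 0 ≤ c i) ∧ x = ∑ i, c i • toR (s i) := by
  classical
  constructor
  · rintro ⟨c, hc, rfl⟩
    set N : (Fin n → ℤ) → ℕ := fun t => (Finset.univ.filter fun i => s i = t).card with hN
    refine ⟨fun i => c (s i) / N (s i), fun i => div_nonneg (hc _) (Nat.cast_nonneg _), ?_⟩
    have h1 := Finset.sum_comp (s := (Finset.univ : Finset (Fin m)))
      (fun t => (c t / (N t : ℝ)) • (toR t : V n)) s
    rw [h1]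
    refine Finset.sum_congr rfl fun t ht => ?_
    obtain ⟨i, -, hi⟩ := Finset.mem_image.1 ht
    have hpos : (0 : ℝ) < N t := by
      have : 0 < N t := Finset.card_pos.2 ⟨i, Finset.mem_filter.2 ⟨Finset.mem_univ i, hi⟩⟩
      exact_mod_cast this
    rw [← Nat.cast_smul_eq_nsmul ℝ, smul_smul]
    congr 1
    have h2 : ((Finset.univ.filter fun i => s i = t).card : ℝ) = (N t : ℝ) := rfl
    rw [h2]
    field_simp
  · rintro ⟨c, hc, rfl⟩
    apply sum_mem_cone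
    intro i _
    exact cone_smul (hc i) (toR_mem_cone (Finset.mem_image_of_mem s (Finset.mem_univ i)))

theorem rel_iff (hX : IsVar X) [FiniteDimensional ℝ (N1 X)] (Γ : Subgroup (MAut X)) {n : ℕ}
    (b : LatB X n) : RelS (ActS Γ) ↔ Rel (ampR b) (grpR Γ b) := by
  classical
  have hbij := pt_bij hX b
  constructor
  · intro h x hx0 hx hxC
    obtain ⟨N, hN⟩ := pt_int hX b x
    have hN' : cl N = pt b (toR x) := hN
    obtain ⟨m, D, hD, h1⟩ := h N (by rw [hN']; exact (cl_ampR hX b _).1 hx) (by rw [hN']; exact hxC) (by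
      rw [hN']
      intro h0
      rw [← pt_zero b] at h0
      exact toR_ne_zero hx0 (hbij.1 h0))
    choose s hs using fun i => int_pt hX b (D i)
    have hs' : ∀ i, cl (D i) = pt b (toR (s i)) := hs
    refine ⟨Finset.univ.image s, ?_, fun A hA => ?_⟩
    · intro t ht
      obtain ⟨i, _, rfl⟩ := Finset.mem_image.1 ht
      rw [cl_ampR hX b, ← hs']
      exact hD i
    · obtain ⟨B, hB⟩ := pt_int hX b A
      have hB' : cl B = pt b (toR A) := hB
      obtain ⟨_, ⟨g, hg, rfl⟩, hgN, t, c, ht, hc, h2⟩ := h1 B (by rw [hB']; exact hA)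
      obtain ⟨M, hM⟩ := act_gl hX b g
      refine ⟨M, ⟨g, hg, hM⟩, ?_, t, ht, ?_⟩
      · apply hbij.1
        rw [← hM, ← hN']
        exact hgN
      · rw [cone_fam]
        refine ⟨c, hc, hbij.1 ?_⟩
        rw [← hM, pt_add, pt_smul, ← hB', ← hN', h2, pt_sum]
        refine Finset.sum_congr rfl fun i _ => ?_
        rw [hs', pt_smul]
  · intro h N hN hNC hN0
    obtain ⟨x, hx⟩ := int_pt hX b N
    have hx' : cl N = pt b (toR x) := hx
    have hx0 : x ≠ 0 := by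
      rintro rfl
      apply hN0
      rw [hx', toR_zero, pt_zero]
    obtain ⟨S, hS, h1⟩ := h x hx0 (by rw [cl_ampR hX b, ← hx']; exact hN) (by
      intro hxC
      apply hNC
      rw [hx']
      exact hxC)
    let e : Fin S.card ≃ S := S.equivFin.symm
    choose D hD using fun i : Fin S.card => pt_int hX b (e i : Fin n → ℤ)
    have hD' : ∀ i, cl (D i) = pt b (toR (e i : Fin n → ℤ)) := hD
    have hSe : Finset.univ.image (fun i => (e i : Fin n → ℤ)) = S := by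
      ext t
      rw [Finset.mem_image]
      constructor
      · rintro ⟨i, _, rfl⟩
        exact (e i).2
      · intro ht
        exact ⟨e.symm ⟨t, ht⟩, Finset.mem_univ _, by simp⟩
    refine ⟨S.card, D, fun i => ?_, fun A hA => ?_⟩
    · rw [hD', ← cl_ampR hX b]
      exact hS _ (e i).2
    · obtain ⟨a, ha⟩ := int_pt hX b A
      have ha' : cl A = pt b (toR a) := ha
      obtain ⟨M, ⟨g, hg, hM⟩, hMx, t, ht, h2⟩ := h1 a (by
        change pt b (toR a) ∈ AmpC X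
        rw [← ha']
        exact hA)
      rw [← hSe, cone_fam] at h2
      obtain ⟨c, hc, h3⟩ := h2
      refine ⟨g.act, ⟨g, hg, rfl⟩, ?_, t, c, ht, hc, ?_⟩
      · rw [hx', hM, hMx]
      · rw [ha', hx', ← pt_smul, ← pt_add, hM, h3, pt_sum]
        refine Finset.sum_congr rfl fun i _ => ?_
        rw [pt_smul, ← hD']

theorem pres_ampR (Γ : Subgroup (MAut X)) {n : ℕ} (b : LatB X n) : Pres (grpR Γ b) (ampR b) := by
  rintro A ⟨g, hg, hA'⟩ x hx
  change pt b (act A x) ∈ AmpC X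
  rw [← hA']
  exact act_amp g _ hx

theorem deg_dual (hX : IsVar X) [FiniteDimensional ℝ (N1 X)] {n : ℕ} (b : LatB X n)
    {ξ : N1 X →ₗ[ℝ] ℝ} (hξ : IsDeg ξ) {z : Fin n → ℤ} (hz : ∀ x : V n, ξ (pt b x) = toR z ⬝ᵥ x) :
    toR z ∈ dual (ampR b) := by
  intro x hx hx0
  rw [← hz]
  refine hξ.pos _ ((cl_ampR hX b x).1 hx) fun h0 => hx0 ?_
  rw [← pt_zero b] at h0
  exact (pt_bij hX b).1 h0

/-- the descent criterion for the space `X` of local rings and the group `Γ` of automorphisms -/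
theorem descM (hX : IsVar X) (hA : ∃ D : Cart X, Ample D) (Γ : Subgroup (MAut X)) {n : ℕ}
    (b : LatB X n) {ξ : N1 X →ₗ[ℝ] ℝ} (hξ : IsDeg ξ) :
    DomC X Γ ↔ RelS (ActS Γ) ∧ DescS (ActS Γ) ξ := by
  have := fd_of_basis hX b
  have h := isAmp_ampR hX hA b
  have hG := pres_ampR Γ b
  obtain ⟨z, hz⟩ := deg_coord hX b hξ
  have hzd := deg_dual hX b hξ hz
  rw [← dom_iff hX Γ b, dom h hG, rel_iff hX Γ b, desc_iff hX Γ b hz]
  exact ⟨fun hc => ⟨rel_of_cov h hG hzd hc, desc_of_cov h hG hzd hc⟩,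
    fun hc => cov_of_rel h hG hzd hc.1 hc.2⟩

/-- there is a degree -/
theorem exists_deg (hX : IsVar X) (hA : ∃ D : Cart X, Ample D) {n : ℕ} (b : LatB X n) :
    ∃ ξ : N1 X →ₗ[ℝ] ℝ, IsDeg ξ := by
  have := fd_of_basis hX b
  obtain ⟨z, hz⟩ := exists_int_dual (isAmp_ampR hX hA b)
  have hbij := pt_bij hX b
  let e : V n ≃ₗ[ℝ] N1 X := LinearEquiv.ofBijective
    ({ toFun := pt b
       map_add' := pt_add b
       map_smul' := pt_smul b } : (Fin n → ℝ) →ₗ[ℝ] N1 X) hbij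
  have he : ∀ x, e.symm (pt b x) = x := fun x => e.symm_apply_apply x
  refine ⟨weylF z ∘ₗ (e.symm : N1 X →ₗ[ℝ] V n), ?_, ?_⟩
  · intro D
    obtain ⟨s, hs⟩ := int_pt hX b D
    have hs' : cl D = pt b (toR s) := hs
    refine ⟨z ⬝ᵥ s, ?_⟩
    rw [hs']
    change toR z ⬝ᵥ e.symm (pt b (toR s)) = _
    rw [he, dot_toR]
  · intro v hv hv0
    obtain ⟨x, rfl⟩ := hbij.2 v
    change 0 < toR z ⬝ᵥ e.symm (pt b x)
    rw [he]
    refine hz x ((cl_ampR hX b x).2 hv) ?_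
    rintro rfl
    exact hv0 (pt_zero b)

/-- an invariant degree: descent says that all nef classes are in the hull of the rational nef classes -/
theorem desc_inv (Γ : Subgroup (MAut X)) {ξ : N1 X →ₗ[ℝ] ℝ} (hinv : ∀ g ∈ ActS Γ, ∀ v, ξ (g v) = ξ v) :
    DescS (ActS Γ) ξ ↔ NefC X ⊆ NefP X := by
  constructor
  · intro h v hv
    by_contra hcon
    obtain ⟨g, hg, h1⟩ := h v hv hcon
    rw [hinv g hg] at h1
    exact lt_irrefl _ h1
  · intro h v hv hvP
    exact absurd (h hv) hvP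

/-- the descent criterion for a variety `Y` -/
theorem descY {Y : Scheme.{0}} [IsIntegral Y] (f : Y ⟶ Spec (.of ℂ)) [IsProper f]
    (hA : ∃ D : Cart (mdl f), Ample D) {n : ℕ} (b : LatB (mdl f) n) :
    (∃ ξ : N1 (mdl f) →ₗ[ℝ] ℝ, IsDeg ξ) ∧
    ∀ ξ : N1 (mdl f) →ₗ[ℝ] ℝ, IsDeg ξ →
      (Q1Y f ↔ NefE (mdl f) ⊆ NefP (mdl f) ∧ NE (mdl f) ∧ RelY f ∧ DescY f ξ) ∧
      (DomY f ↔ RelY f ∧ DescY f ξ) ∧
      ((∀ g ∈ AutS f, ∀ v, ξ (g v) = ξ v) → (DomY f ↔ RelY f ∧ NefC (mdl f) ⊆ NefP (mdl f))) := by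
  refine ⟨exists_deg (isVar_mdl f) hA b, fun ξ hξ => ?_⟩
  obtain ⟨h1, h2, -⟩ := mainY f hA b
  have h3 : DomY f ↔ RelY f ∧ DescY f ξ := by
    unfold DomY RelY DescY NefP
    rw [autS_eq, fund_iff]
    exact descM (isVar_mdl f) hA (autG f) b hξ
  refine ⟨?_, h3, fun hinv => ?_⟩
  · rw [h1, ← h2, h3]
  · rw [h3]
    unfold DescY
    rw [autS_eq] at hinv ⊢
    rw [desc_inv (autG f) hinv]

end Pool.Agent.H83.DC
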