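import Pool.Agent.H83.DC.Base

/-!
# The descent criterion: the integral points are dense in the Dirichlet cone

`sig_int`: the interior of the Dirichlet cone meets `C` (Baire).
`sig_rat`: the Dirichlet cone is the closure of the set of the multiples of its integral points in `C`.
-/

set_option autoImplicit false

namespace Pool.Agent.H83.DC

open Pool.Agent.H57.KM Pool.Agent.H20.FV

variable {n : ℕ}

theorem sig_int {C : Set (V n)} (h : IsAmp C) {G : Subgroup (GL (Fin n) ℤ)} (hG : Pres G C)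
    {ξ : Fin n → ℤ} (hξ : toR ξ ∈ dual C) : ∃ p, p ∈ C ∧ p ∈ interior (Sig C G ξ) := by
  have hcM : Countable (Matrix (Fin n) (Fin n) ℤ) := inferInstanceAs (Countable (Fin n → Fin n → ℤ))
  have hcG : Countable (GL (Fin n) ℤ) := (Units.val_injective (α := Matrix (Fin n) (Fin n) ℤ)).countable
  let f : Option G → Set (V n) := fun o => o.elim Cᶜ (fun g => {x | act g.1 x ∈ Sig C G ξ})
  have hc : ∀ o, IsClosed (f o) := by
    intro o
    cases o with
    | none => exact h.op.isClosed_compl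
    | some g => exact sig_closed.preimage (act_cont g.1)
  have hU : ⋃ o, f o = Set.univ := by
    rw [Set.eq_univ_iff_forall]
    intro x
    rw [Set.mem_iUnion]
    by_cases hx : x ∈ C
    · obtain ⟨g, hg, h1⟩ := sig_cover h hG hξ hx
      exact ⟨some ⟨g, hg⟩, h1⟩
    · exact ⟨none, hx⟩
  obtain ⟨x, hx, hx2⟩ := (dense_iUnion_interior_of_closed hc hU).inter_open_nonempty C h.op h.ne
  rw [Set.mem_iUnion] at hx2
  obtain ⟨o, ho⟩ := hx2
  cases o with
  | none => exact absurd hx (interior_subset ho)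
  | some g =>
    refine ⟨act g.1 x, hG g.1 g.2 x hx, ?_⟩
    have h1 : IsOpen {y : V n | act g.1⁻¹ y ∈ interior (f (some g))} :=
      isOpen_interior.preimage (act_cont _)
    refine (interior_maximal ?_ h1) ?_
    · intro y hy
      have h2 : act g.1 (act g.1⁻¹ y) ∈ Sig C G ξ := interior_subset (s := f (some g)) hy
      rwa [act_act_inv] at h2
    · change act g.1⁻¹ (act g.1 x) ∈ interior (f (some g))
      rw [act_inv_act]
      exact ho

theorem sig_rat {C : Set (V n)} (h : IsAmp C) {G : Subgroup (GL (Fin n) ℤ)} (hG : Pres G C)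
    {ξ : Fin n → ℤ} (hξ : toR ξ ∈ dual C) {x : V n} (hx : x ∈ Sig C G ξ) :
    x ∈ closure {y : V n | ∃ A : Fin n → ℤ, ∃ c : ℝ, 0 ≤ c ∧ toR A ∈ C ∧ toR A ∈ Sig C G ξ ∧
      y = c • toR A} := by
  obtain ⟨p, hp, hpS⟩ := sig_int h hG hξ
  have h1 : x ∈ closure (C ∩ interior (Sig C G ξ)) := by
    have hlim : Filter.Tendsto (fun k : ℕ => x + (1 / ((k : ℝ) + 1)) • p) Filter.atTop (nhds x) := by
      have h1 := (tendsto_one_div_add_atTop_nhds_zero_nat (𝕜 := ℝ)).smul_const p
      rw [zero_smul] at h1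
      have h2 := h1.const_add x
      rwa [add_zero] at h2
    refine mem_closure_of_tendsto hlim (Filter.Eventually.of_forall fun k => ⟨?_, ?_⟩)
    · exact h.add_mem _ hx.1 _ (h.smul _ (by positivity) p hp)
    · obtain ⟨ε, hε⟩ : ∃ ε : ℝ, ε = 1 / ((k : ℝ) + 1) := ⟨_, rfl⟩
      have hε0 : 0 < ε := by rw [hε]; positivity
      rw [← hε]
      have hop : IsOpen {y : V n | ε⁻¹ • (y - x) ∈ interior (Sig C G ξ)} :=
        isOpen_interior.preimage (by fun_prop)
      refine (interior_maximal ?_ hop) ?_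
      · intro y hy
        have h3 : ε⁻¹ • (y - x) ∈ Sig C G ξ := interior_subset hy
        have h4 : y = x + ε • (ε⁻¹ • (y - x)) := by
          rw [smul_smul, mul_inv_cancel₀ hε0.ne', one_smul]
          abel
        rw [h4]
        exact sig_add h hx (sig_smul h hε0.le h3)
      · change ε⁻¹ • (x + ε • p - x) ∈ interior (Sig C G ξ)
        rw [add_sub_cancel_left, smul_smul, inv_mul_cancel₀ hε0.ne', one_smul]
        exact hpS
  rw [mem_closure_iff] at h1 ⊢
  intro o ho hxo
  obtain ⟨z, hzo, hzC, hzS⟩ := h1 o ho hxo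
  obtain ⟨q, hq⟩ := exists_rat ((ho.inter h.op).inter isOpen_interior) ⟨z, ⟨hzo, hzC⟩, hzS⟩
  obtain ⟨d, hd, s, hs⟩ := datum_clear q
  have hd0 : (0 : ℝ) < d := by exact_mod_cast hd
  refine ⟨qR q, hq.1.1, s, (d : ℝ)⁻¹, by positivity, ?_, ?_, ?_⟩
  · rw [hs]
    exact h.smul _ hd0 _ hq.1.2
  · rw [hs]
    exact sig_smul h hd0.le (interior_subset hq.2)
  · rw [hs, smul_smul, inv_mul_cancel₀ hd0.ne', one_smul]

end Pool.Agent.H83.DC
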