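import Pool.Agent.H49.BS.Main

/-!
# The cone conjecture as bounded splitting of ample classes

`D : NefData n` is `N^1(Y)` with its lattice, the ample cone, the cone of effective classes and the image of `Aut(Y)`,
`I` is the top intersection form, `d = dim Y`. Given the theorem that the ample integral classes of bounded degree form
finitely many orbits of `Aut(Y)`, Q1 is a property of the nef cone and its lattice in which the group does not occur:
every integral nef class is effective, and every ample integral class of large degree is the middle of two other
ample integral classes.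
-/

set_option autoImplicit false

namespace Pool.Agent.Results.MP_e49dc9_ag.BoundedSplitting

open Pool.Agent.H57.KM Pool.Agent.H49.BS

/-- The following are equivalent: a rational polyhedral fundamental domain on the hull of the rational nef classes;
the ample integral classes of bounded degree form finitely many orbits, and those of large degree are sums of an ample
and a nonzero nef integral class; for some `B`, the ample integral classes of degree at most `B` form finitely many
orbits, and each one of larger degree is the middle of two different ample integral classes. Together with the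
effectivity of the integral nef classes they are equivalent to Q1. -/
theorem result {n d : ℕ} (D : NefData n) (I : MultilinearMap ℝ (fun _ : Fin d => V n) ℝ)
    (hI : Pool.Agent.H49.IRE.TopForm D I) (hd : 0 < d) :
    [Pool.Agent.H20.FV.HasDomain D.amp D.G,
      (∀ B : ℝ, Pool.Agent.H20.FV.FinOrb D.G (Low D I B)) ∧
        ∃ B : ℝ, ∀ s : Fin n → ℤ, toR s ∈ D.amp → B < I (fun _ => toR s) → Splits D s,
      ∃ B : ℝ, Pool.Agent.H20.FV.FinOrb D.G (Low D I B) ∧
        ∀ s : Fin n → ℤ, toR s ∈ D.amp → B < I (fun _ => toR s) → Middle D s].TFAE ∧
    [D.Q1,
      (∀ s : Fin n → ℤ, toR s ∈ closure D.amp → toR s ∈ D.eff) ∧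
        (∀ B : ℝ, Pool.Agent.H20.FV.FinOrb D.G (Low D I B)) ∧
        ∃ B : ℝ, ∀ s : Fin n → ℤ, toR s ∈ D.amp → B < I (fun _ => toR s) → Splits D s,
      (∀ s : Fin n → ℤ, toR s ∈ closure D.amp → toR s ∈ D.eff) ∧
        ∃ B : ℝ, Pool.Agent.H20.FV.FinOrb D.G (Low D I B) ∧
          ∀ s : Fin n → ℤ, toR s ∈ D.amp → B < I (fun _ => toR s) → Middle D s].TFAE :=
  Pool.Agent.H49.BS.main D I hI hd

end Pool.Agent.Results.MP_e49dc9_ag.BoundedSplitting
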