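import Pool.Agent.H54.RV.FDefs

/-!
# The descent criterion for real varieties: the definitions of the statement

`G` is a set of maps of `N1 X` to itself (the pull-backs by the automorphisms).

* `IsDeg ξ`: the linear functional `ξ` has integral values on the classes of the Cartier divisors and is positive on
  the nonzero nef classes (for example the degree with respect to an ample divisor).
* `RelS G`: the relative cone conjecture at every integral nef class `cl N ≠ 0` which is not ample.
* `DescS G ξ`: every nef class outside the hull of the rational nef classes can be lowered.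
* `RelY f`, `DescY f ξ`: the same for the automorphisms of `Y` over `ℂ`.
-/

set_option autoImplicit false

namespace Pool.Agent.H83.DC

open AlgebraicGeometry Pool.Agent.H54.RV

section gen

variable {k K : Type} [Field k] [Field K] [Algebra k K] {X : Mod k K}

/-- linear functionals with integral values on the classes of the Cartier divisors, positive on the nonzero nef
classes -/
structure IsDeg (ξ : N1 X →ₗ[ℝ] ℝ) : Prop where
  int : ∀ D : Cart X, ∃ m : ℤ, ξ (cl D) = m
  pos : ∀ v ∈ NefC X, v ≠ 0 → 0 < ξ v

/-- the relative cone conjecture: for every integral nef class `cl N ≠ 0` which is not ample there are finitely many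
integral nef classes such that every integral class `cl A` of the ample cone is carried, after adding a multiple of
`cl N`, into the cone generated by them by an element of `G` which fixes `cl N` -/
def RelS (G : Set (N1 X → N1 X)) : Prop :=
  ∀ N : Cart X, cl N ∈ NefC X → cl N ∉ AmpC X → cl N ≠ 0 →
    ∃ (m : ℕ) (D : Fin m → Cart X), (∀ i, cl (D i) ∈ NefC X) ∧
      ∀ A : Cart X, cl A ∈ AmpC X → ∃ g ∈ G, g (cl N) = cl N ∧
        ∃ (t : ℝ) (c : Fin m → ℝ), 0 ≤ t ∧ (∀ i, 0 ≤ c i) ∧
          g (cl A + t • cl N) = ∑ i, c i • cl (D i)

/-- descent: a nef class outside the convex hull of the rational nef classes can be lowered by an element of `G` -/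
def DescS (G : Set (N1 X → N1 X)) (ξ : N1 X →ₗ[ℝ] ℝ) : Prop :=
  ∀ v ∈ NefC X, v ∉ NefP X → ∃ g ∈ G, ξ (g v) < ξ v

end gen

variable {Y : Scheme.{0}} [IsIntegral Y] (f : Y ⟶ Spec (.of ℂ))

/-- the relative cone conjecture for the nef classes of `Y` -/
def RelY : Prop := RelS (AutS f)

/-- descent for the nef classes of `Y` -/
def DescY (ξ : N1 (mdl f) →ₗ[ℝ] ℝ) : Prop := DescS (AutS f) ξ

end Pool.Agent.H83.DC
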